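import Pool.Agent.Helper876_NK.PMain

set_option autoImplicit false

/-!
# Pólya's conjecture for the Neumann eigenvalues of convex domains in high dimension
-/

open MeasureTheory Set Metric
open scoped ENNReal Real

namespace Pool.Agent.Results.MP_022645_an.ConvexHighDim

/-- Nonempty bounded open convex sets. -/
structure IsConvexDomain {n : ℕ} (Ω : Set (EuclideanSpace ℝ (Fin n))) : Prop where
  isOpen : IsOpen Ω
  convex : Convex ℝ Ω
  isBounded : Bornology.IsBounded Ω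
  nonempty : Ω.Nonempty

/-- `Ω` carries `j + 1` functions of class `C¹`, linearly independent on `Ω`, such that each
linear combination `v` of them satisfies `∫_Ω |∇v|² ≤ M ∫_Ω v²`. -/
def RayleighBound {n : ℕ} (Ω : Set (EuclideanSpace ℝ (Fin n))) (j : ℕ) (M : ℝ) : Prop :=
  ∃ g : Fin (j + 1) → EuclideanSpace ℝ (Fin n) → ℝ, (∀ i, ContDiff ℝ 1 (g i)) ∧
    LinearIndependent ℝ (fun (i : Fin (j + 1)) (x : Ω) => g i x) ∧
    ∀ c : Fin (j + 1) → ℝ,
      ∫ x in Ω, ‖fderiv ℝ (∑ i, c i • g i) x‖ ^ 2 ≤ M * ∫ x in Ω, (∑ i, c i • g i) x ^ 2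

/-- The Neumann eigenvalue `μ_j(Ω)`, `j = 0, 1, 2, …` (`μ_0 = 0`), of the Laplacian on a bounded convex domain,
by the min-max principle. -/
noncomputable def mu {n : ℕ} (j : ℕ) (Ω : Set (EuclideanSpace ℝ (Fin n))) : ℝ :=
  sInf {M : ℝ | RayleighBound Ω j M}

/-- The Weyl term `W_j(Ω) = (2 π)² (j / (ω_n |Ω|)) ^ (2 / n)`, where `ω_n` is the volume of the unit ball. -/
noncomputable def W {n : ℕ} (j : ℕ) (Ω : Set (EuclideanSpace ℝ (Fin n))) : ℝ :=
  (2 * π) ^ 2 * (j / (volume.real (ball (0 : EuclideanSpace ℝ (Fin n)) 1) * volume.real Ω)) ^ (2 / (n : ℝ))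

/-- There is `N` such that in every dimension `n ≥ N` Pólya's inequality `μ_j(Ω) ≤ W_j(Ω)` holds for every convex
domain `Ω` in `ℝⁿ` and every index `1 ≤ j ≤ n / 4`. -/
theorem result : ∃ N : ℕ, ∀ n : ℕ, N ≤ n → ∀ Ω : Set (EuclideanSpace ℝ (Fin n)), IsConvexDomain Ω →
    ∀ j : ℕ, 1 ≤ j → 4 * j ≤ n → mu j Ω ≤ W j Ω := by
  obtain ⟨N, -, hN⟩ := Pool.Agent.Helper876.NK.polya_convex
  exact ⟨N, fun n hn Ω hΩ j hj hjn => hN n j hn hj hjn Ω ⟨hΩ.1, hΩ.2, hΩ.3, hΩ.4⟩⟩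

end Pool.Agent.Results.MP_022645_an.ConvexHighDim
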